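import Mathlib

/-!
# Sets generated by few points in a set with a semiregular group action
-/

set_option autoImplicit false

namespace Pool.Agent.U310.CT

open Finset

/-- The group `Γ` acts semiregularly (freely) on `V`: only the identity has fixed points. -/
def Semireg (Γ V : Type) [Group Γ] [MulAction Γ V] : Prop :=
  ∀ (g : Γ) (v : V), g • v = v → g = 1

section

variable {Γ V : Type} [Group Γ] [MulAction Γ V]

theorem Semireg.eq (h : Semireg Γ V) {g g' : Γ} {v : V} (e : g • v = g' • v) : g = g' := by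
  have h1 : (g'⁻¹ * g) • v = v := by rw [mul_smul, e, inv_smul_smul]
  have h2 := h _ _ h1
  exact (inv_mul_eq_one.1 h2).symm

variable (Γ) in
open Classical in
/-- The point `g • b` for the (unique) `g` with `g • a = c`, if there is one. -/
noncomputable def st (a b c : V) : V :=
  if h : ∃ g : Γ, g • a = c then h.choose • b else b

theorem st_eq (h : Semireg Γ V) {g : Γ} {a b c : V} (e : g • a = c) : st Γ a b c = g • b := by
  classical
  have hex : ∃ g : Γ, g • a = c := ⟨g, e⟩
  unfold st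
  rw [dif_pos hex]
  have h1 := hex.choose_spec
  rw [h.eq (h1.trans e.symm)]

variable [Fintype V] [DecidableEq V]

variable (Γ V) in
/-- The sets obtained in `L` steps from the empty set, by adding points `st a b c` of points
already present, or, at most `K` times, arbitrary points. -/
noncomputable def gen : ℕ → ℕ → Finset (Finset V)
  | _, 0 => {∅}
  | 0, L + 1 => (gen 0 L).biUnion fun Y =>
      insert Y ((Y ×ˢ Y ×ˢ Y).image fun p => insert (st Γ p.1 p.2.1 p.2.2) Y)
  | K + 1, L + 1 => ((gen (K + 1) L).biUnion fun Y =>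
      insert Y ((Y ×ˢ Y ×ˢ Y).image fun p => insert (st Γ p.1 p.2.1 p.2.2) Y)) ∪
      (gen K L).biUnion fun Y => univ.image fun y => insert y Y

theorem card_of_mem_gen : ∀ (L K : ℕ) (Y : Finset V), Y ∈ gen Γ V K L → Y.card ≤ L := by
  intro L
  induction L with
  | zero =>
    intro K Y hY
    have : Y = ∅ := by
      cases K <;> simpa [gen] using hY
    simp [this]
  | succ L ih =>
    intro K Y hY
    have key : ∀ K : ℕ, (Y ∈ (gen Γ V K L).biUnion fun Y =>
      insert Y ((Y ×ˢ Y ×ˢ Y).image fun p => insert (st Γ p.1 p.2.1 p.2.2) Y)) →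
        Y.card ≤ L + 1 := by
      intro K h
      rw [mem_biUnion] at h
      obtain ⟨Z, hZ, h⟩ := h
      have hc := ih K Z hZ
      rw [mem_insert, mem_image] at h
      rcases h with rfl | ⟨p, -, rfl⟩
      · omega
      · exact (card_insert_le _ _).trans (by omega)
    cases K with
    | zero =>
      rw [gen] at hY
      exact key 0 hY
    | succ K =>
      rw [gen, mem_union] at hY
      rcases hY with h | h
      · exact key (K + 1) h
      · rw [mem_biUnion] at h
        obtain ⟨Z, hZ, h⟩ := h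
        have hc := ih K Z hZ
        rw [mem_image] at h
        obtain ⟨y, -, rfl⟩ := h
        exact (card_insert_le _ _).trans (by omega)

theorem card_ext_le (L K B : ℕ) (hB : (gen Γ V K L).card ≤ B) :
    ((gen Γ V K L).biUnion fun Y =>
      insert Y ((Y ×ˢ Y ×ˢ Y).image fun p => insert (st Γ p.1 p.2.1 p.2.2) Y)).card ≤
      B * (L ^ 3 + 1) := by
  refine (card_biUnion_le_card_mul _ _ (L ^ 3 + 1) ?_).trans (Nat.mul_le_mul_right _ hB)
  intro Y hY
  have hc := card_of_mem_gen L K Y hY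
  refine (card_insert_le _ _).trans (Nat.add_le_add_right (card_image_le.trans ?_) 1)
  rw [card_product, card_product]
  calc Y.card * (Y.card * Y.card) ≤ L * (L * L) :=
        Nat.mul_le_mul hc (Nat.mul_le_mul hc hc)
    _ = L ^ 3 := by ring

theorem card_gen_le (q : ℕ) (hq : 1 ≤ q) (hV : Fintype.card V ≤ q) : ∀ (L K : ℕ),
    (gen Γ V K L).card ≤ q ^ K * (2 * (L + 1) ^ 3) ^ L := by
  intro L
  induction L with
  | zero =>
    intro K
    have : gen Γ V K 0 = {∅} := by cases K <;> rfl
    rw [this]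
    simp
    exact Nat.one_le_iff_ne_zero.2 (pow_ne_zero _ (by omega))
  | succ L ih =>
    intro K
    have hstep : (2 * (L + 1) ^ 3) ^ L * (L ^ 3 + 1) + (2 * (L + 1) ^ 3) ^ L ≤
        (2 * (L + 1 + 1) ^ 3) ^ (L + 1) := by
      calc (2 * (L + 1) ^ 3) ^ L * (L ^ 3 + 1) + (2 * (L + 1) ^ 3) ^ L
          = (2 * (L + 1) ^ 3) ^ L * (L ^ 3 + 2) := by ring
        _ ≤ (2 * (L + 1 + 1) ^ 3) ^ L * (2 * (L + 1 + 1) ^ 3) := by
            refine Nat.mul_le_mul (Nat.pow_le_pow_left ?_ _) ?_
            · exact Nat.mul_le_mul_left _ (Nat.pow_le_pow_left (by omega) _)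
            · have : (L + 1 + 1) ^ 3 = L ^ 3 + 6 * L ^ 2 + 12 * L + 8 := by ring
              rw [this]
              nlinarith
        _ = _ := (pow_succ _ _).symm
    cases K with
    | zero =>
      rw [gen]
      refine (card_ext_le L 0 _ (ih 0)).trans ?_
      simp only [pow_zero, one_mul]
      exact le_trans (Nat.le_add_right _ _) hstep
    | succ K =>
      rw [gen]
      refine (card_union_le _ _).trans ?_
      have h1 := card_ext_le (Γ := Γ) (V := V) L (K + 1) _ (ih (K + 1))
      have h2 : ((gen Γ V K L).biUnion fun Y => univ.image fun y => insert y Y).card ≤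
          (q ^ K * (2 * (L + 1) ^ 3) ^ L) * q := by
        refine (card_biUnion_le_card_mul _ _ q ?_).trans (Nat.mul_le_mul_right _ (ih K))
        intro Y _
        exact card_image_le.trans (by rw [card_univ]; exact hV)
      calc _ ≤ q ^ (K + 1) * (2 * (L + 1) ^ 3) ^ L * (L ^ 3 + 1) +
            (q ^ K * (2 * (L + 1) ^ 3) ^ L) * q := Nat.add_le_add h1 h2
        _ = q ^ (K + 1) * ((2 * (L + 1) ^ 3) ^ L * (L ^ 3 + 1) + (2 * (L + 1) ^ 3) ^ L) := by
            ring
        _ ≤ _ := Nat.mul_le_mul_left _ hstep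

theorem gen_succ_sub (K L : ℕ) {Y : Finset V} (hY : Y ∈ gen Γ V K L) :
    Y ∈ gen Γ V K (L + 1) := by
  have key : Y ∈ (gen Γ V K L).biUnion fun Y =>
      insert Y ((Y ×ˢ Y ×ˢ Y).image fun p => insert (st Γ p.1 p.2.1 p.2.2) Y) :=
    mem_biUnion.2 ⟨Y, hY, mem_insert_self _ _⟩
  cases K with
  | zero => rw [gen]; exact key
  | succ K => rw [gen]; exact mem_union_left _ key

theorem gen_step (K L : ℕ) {Y : Finset V} (hY : Y ∈ gen Γ V K L) {a b c : V} (ha : a ∈ Y)
    (hb : b ∈ Y) (hc : c ∈ Y) : insert (st Γ a b c) Y ∈ gen Γ V K (L + 1) := by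
  have key : insert (st Γ a b c) Y ∈ (gen Γ V K L).biUnion fun Y =>
      insert Y ((Y ×ˢ Y ×ˢ Y).image fun p => insert (st Γ p.1 p.2.1 p.2.2) Y) :=
    mem_biUnion.2 ⟨Y, hY, mem_insert_of_mem (mem_image.2 ⟨(a, b, c), by simp [ha, hb, hc], rfl⟩)⟩
  cases K with
  | zero => rw [gen]; exact key
  | succ K => rw [gen]; exact mem_union_left _ key

theorem gen_free (K L : ℕ) {Y : Finset V} (hY : Y ∈ gen Γ V K L) (y : V) :
    insert y Y ∈ gen Γ V (K + 1) (L + 1) := by
  rw [gen]
  exact mem_union_right _ (mem_biUnion.2 ⟨Y, hY, mem_image.2 ⟨y, mem_univ _, rfl⟩⟩)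

variable (Γ) in
/-- `T` is closed in `S`. -/
def Closed (S T : Finset V) : Prop :=
  ∀ a ∈ T, ∀ b ∈ T, ∀ c ∈ T, st Γ a b c ∈ S → st Γ a b c ∈ T

/-- Closure inside `S`. -/
theorem exists_closure (S : Finset V) (K : ℕ) (T : Finset V) (hTS : T ⊆ S)
    (hT : T ∈ gen Γ V K T.card) :
    ∃ T', T ⊆ T' ∧ T' ⊆ S ∧ T' ∈ gen Γ V K T'.card ∧ Closed Γ S T' := by
  classical
  obtain ⟨T', hT', hmax⟩ := exists_max_image
    ((S.powerset).filter fun U => T ⊆ U ∧ U ∈ gen Γ V K U.card) card
    ⟨T, by simp [hTS, hT]⟩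
  rw [mem_filter, mem_powerset] at hT'
  refine ⟨T', hT'.2.1, hT'.1, hT'.2.2, ?_⟩
  intro a ha b hb c hc hS
  by_contra hn
  have h1 := gen_step K _ hT'.2.2 ha hb hc
  have h2 : (insert (st Γ a b c) T').card = T'.card + 1 := card_insert_of_notMem hn
  have h3 := hmax (insert (st Γ a b c) T') (by
    rw [mem_filter, mem_powerset]
    refine ⟨insert_subset hS hT'.1, hT'.2.1.trans (subset_insert _ _), ?_⟩
    rw [h2]
    exact h1)
  omega

end

end Pool.Agent.U310.CT
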