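import Pool.Agent.U310.CT.Gen

/-!
# Few classes of pairs: generation by few points
-/

set_option autoImplicit false

namespace Pool.Agent.U310.CT

open Finset

section

variable (Γ : Type) {V : Type} [Group Γ] [MulAction Γ V]

/-- The class of a pair of points. -/
def pc (a b : V) : MulAction.orbitRel.Quotient Γ (V × V) :=
  Quotient.mk (MulAction.orbitRel Γ (V × V)) (a, b)

theorem pc_eq_iff {a b c d : V} : pc Γ a b = pc Γ c d ↔ ∃ g : Γ, g • c = a ∧ g • d = b := by
  unfold pc
  rw [Quotient.eq]
  change (a, b) ∈ MulAction.orbit Γ (c, d) ↔ _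
  rw [MulAction.mem_orbit_iff]
  simp [Prod.ext_iff]

open Classical in
/-- The classes of the pairs of different points of `S`. -/
noncomputable def D (S : Finset V) : Finset (MulAction.orbitRel.Quotient Γ (V × V)) :=
  S.offDiag.image fun p => pc Γ p.1 p.2

theorem mem_D {S : Finset V} {a b : V} (ha : a ∈ S) (hb : b ∈ S) (hab : a ≠ b) :
    pc Γ a b ∈ D Γ S := by
  classical
  exact mem_image.2 ⟨(a, b), by simp [ha, hb, hab], rfl⟩

theorem D_mono {S T : Finset V} (h : S ⊆ T) : D Γ S ⊆ D Γ T := by
  classical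
  exact image_subset_image (offDiag_mono h)

variable {Γ} [DecidableEq V]

/-- Every pair class is counted: `|D| ≥ |S| - 1`. -/
theorem card_le_D (h : Semireg Γ V) (S : Finset V) : S.card ≤ (D Γ S).card + 1 := by
  classical
  rcases S.eq_empty_or_nonempty with rfl | ⟨x, hx⟩
  · simp
  have h1 : ((S.erase x).image fun y => pc Γ x y) ⊆ D Γ S := by
    intro q hq
    obtain ⟨y, hy, rfl⟩ := mem_image.1 hq
    rw [mem_erase] at hy
    exact mem_D Γ hx hy.2 (Ne.symm hy.1)
  have h2 : ((S.erase x).image fun y => pc Γ x y).card = (S.erase x).card := by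
    refine card_image_of_injOn ?_
    intro y _ z _ e
    obtain ⟨g, hg1, hg2⟩ := (pc_eq_iff Γ).1 e
    have := h g x hg1
    rw [this, one_smul] at hg2
    exact hg2.symm
  have h3 := card_le_card h1
  rw [h2, card_erase_of_mem hx] at h3
  omega

variable [Fintype V]

/-- The basic growth step. -/
theorem exists_step (h : Semireg Γ V) (S T : Finset V) (K : ℕ) (hTS : T ⊆ S) (hne : T ≠ S)
    (hT : T ∈ gen Γ V K T.card) (hcl : Closed Γ S T) :
    ∃ T', T ⊆ T' ∧ T' ⊆ S ∧ T' ∈ gen Γ V (K + 1) T'.card ∧ Closed Γ S T' ∧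
      T.card < T'.card ∧
      (S.card - T.card) * T.card ≤ (T'.card - T.card) * (D Γ S).card := by
  classical
  set N : V → Finset V := fun x => (S \ T).filter fun y =>
    ∃ a ∈ T, ∃ b ∈ T, ∃ g : Γ, g • a = b ∧ g • x = y with hN
  -- a maximal set of unrelated points
  obtain ⟨X, hX, hmax⟩ := exists_max_image
    (((S \ T).powerset).filter fun X => ∀ x ∈ X, ∀ y ∈ X, y ∈ N x → x = y) card
    ⟨∅, by simp⟩
  rw [mem_filter, mem_powerset] at hX
  obtain ⟨x₀, hx₀⟩ : (S \ T).Nonempty := by
    rw [sdiff_nonempty]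
    intro hST
    exact hne (hTS.antisymm hST)
  rcases T.eq_empty_or_nonempty with rfl | ⟨t₀, ht₀⟩
  · -- trivial case
    obtain ⟨T', h1, h2, h3, h4⟩ := exists_closure (Γ := Γ) S (K + 1) {x₀}
      (by simpa using (mem_sdiff.1 hx₀).1) (by
        have := gen_free (Γ := Γ) K 0 (Y := (∅ : Finset V)) (by simpa using hT) x₀
        simpa using this)
    refine ⟨T', empty_subset _, h2, h3, h4, ?_, by simp⟩
    have : 0 < T'.card := card_pos.2 ⟨x₀, h1 (mem_singleton_self _)⟩
    simpa using this
  have hNself : ∀ x ∈ S \ T, x ∈ N x := by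
    intro x hx
    rw [hN, mem_filter]
    exact ⟨hx, t₀, ht₀, t₀, ht₀, 1, one_smul _ _, one_smul _ _⟩
  have hNsymm : ∀ x ∈ S \ T, ∀ y, y ∈ N x → x ∈ N y := by
    intro x hx y hy
    rw [hN, mem_filter] at hy ⊢
    obtain ⟨-, a, ha, b, hb, g, hg1, hg2⟩ := hy
    exact ⟨hx, b, hb, a, ha, g⁻¹, by rw [← hg1, inv_smul_smul], by rw [← hg2, inv_smul_smul]⟩
  have hcover : S \ T ⊆ X.biUnion N := by
    intro y hy
    rw [mem_biUnion]
    by_contra hn
    push Not at hn
    have hyX : y ∉ X := fun hyX => hn y hyX (hNself y hy)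
    have h1 := hmax (insert y X) (by
      rw [mem_filter, mem_powerset]
      refine ⟨insert_subset hy hX.1, ?_⟩
      intro u hu v hv huv
      rw [mem_insert] at hu hv
      rcases hu with rfl | hu
      · rcases hv with rfl | hv
        · rfl
        · exact absurd (hNsymm u hy v huv) (hn v hv)
      · rcases hv with rfl | hv
        · exact absurd huv (hn u hu)
        · exact hX.2 u hu v hv huv)
    rw [card_insert_of_notMem hyX] at h1
    omega
  -- the number of unrelated points
  have hXD : X.card * T.card ≤ (D Γ S).card := by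
    have h1 : ((X ×ˢ T).image fun p => pc Γ p.2 p.1) ⊆ D Γ S := by
      intro q hq
      obtain ⟨⟨x, t⟩, hxt, rfl⟩ := mem_image.1 hq
      rw [mem_product] at hxt
      have hx := mem_sdiff.1 (hX.1 hxt.1)
      exact mem_D Γ (hTS hxt.2) hx.1 (fun e => hx.2 (e ▸ hxt.2))
    have h2 : ((X ×ˢ T).image fun p => pc Γ p.2 p.1).card = (X ×ˢ T).card := by
      refine card_image_of_injOn ?_
      rintro ⟨x, t⟩ hxt ⟨x', t'⟩ hxt' e
      simp only [coe_product, Set.mem_prod, mem_coe] at hxt hxt'
      obtain ⟨g, hg1, hg2⟩ := (pc_eq_iff Γ).1 e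
      simp only at hg1 hg2
      have h3 : x ∈ N x' := by
        rw [hN, mem_filter]
        exact ⟨hX.1 hxt.1, t', hxt'.2, t, hxt.2, g, hg1, hg2⟩
      have h4 := hX.2 x' hxt'.1 x hxt.1 h3
      subst h4
      have h5 := h g _ hg2
      rw [h5, one_smul] at hg1
      rw [hg1]
    have h3 := card_le_card h1
    rwa [h2, card_product] at h3
  -- pigeonhole
  obtain ⟨x, hx, hxN⟩ : ∃ x ∈ X, (S.card - T.card) ≤ (N x).card * X.card := by
    by_contra hn
    push Not at hn
    have hXne : X.Nonempty := by
      by_contra hXe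
      rw [not_nonempty_iff_eq_empty] at hXe
      have := hcover hx₀
      rw [hXe] at this
      simp at this
    have h1 : (S \ T).card ≤ ∑ x ∈ X, (N x).card := (card_le_card hcover).trans card_biUnion_le
    rw [card_sdiff_of_subset hTS] at h1
    have h2 : (∑ x ∈ X, (N x).card) * X.card < X.card * (S.card - T.card) := by
      rw [sum_mul]
      calc ∑ i ∈ X, (N i).card * X.card < ∑ i ∈ X, (S.card - T.card) :=
            sum_lt_sum_of_nonempty hXne hn
        _ = X.card * (S.card - T.card) := by rw [sum_const, smul_eq_mul]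
    have h3 := Nat.mul_le_mul_right X.card h1
    rw [mul_comm X.card] at h2
    omega
  have hxS := mem_sdiff.1 (hX.1 hx)
  obtain ⟨T', h1, h2, h3, h4⟩ := exists_closure (Γ := Γ) S (K + 1) (insert x T)
    (insert_subset hxS.1 hTS) (by
      rw [card_insert_of_notMem hxS.2]
      exact gen_free K _ hT x)
  have hTT' : T ⊆ T' := (subset_insert _ _).trans h1
  have hNT' : N x ⊆ T' := by
    intro y hy
    rw [hN, mem_filter] at hy
    obtain ⟨hyS, a, ha, b, hb, g, hg1, hg2⟩ := hy
    have h5 : st Γ a x b = y := by rw [st_eq h hg1, hg2]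
    rw [← h5]
    refine h4 a (hTT' ha) x (h1 (mem_insert_self _ _)) b (hTT' hb) ?_
    rw [h5]
    exact (mem_sdiff.1 hyS).1
  have hcard : T.card + (N x).card ≤ T'.card := by
    have hdisj : Disjoint T (N x) := by
      rw [Finset.disjoint_left]
      intro y hyT hyN
      rw [hN, mem_filter] at hyN
      exact (mem_sdiff.1 hyN.1).2 hyT
    rw [← card_union_of_disjoint hdisj]
    exact card_le_card (union_subset hTT' hNT')
  have hNpos : 0 < (N x).card := card_pos.2 ⟨x, hNself x (hX.1 hx)⟩
  refine ⟨T', hTT', h2, h3, h4, by omega, ?_⟩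
  calc (S.card - T.card) * T.card ≤ ((N x).card * X.card) * T.card :=
        Nat.mul_le_mul_right _ hxN
    _ = (N x).card * (X.card * T.card) := by ring
    _ ≤ (T'.card - T.card) * (D Γ S).card := Nat.mul_le_mul (by omega) hXD

theorem gen_mono_K : ∀ (L K : ℕ), gen Γ V K L ⊆ gen Γ V (K + 1) L := by
  intro L
  induction L with
  | zero =>
    intro K
    have h1 : gen Γ V K 0 = {∅} := by cases K <;> rfl
    have h2 : gen Γ V (K + 1) 0 = {∅} := rfl
    rw [h1, h2]
  | succ L ih =>
    intro K Y hY
    have key : ∀ K : ℕ, Y ∈ ((gen Γ V K L).biUnion fun Y =>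
      insert Y ((Y ×ˢ Y ×ˢ Y).image fun p => insert (st Γ p.1 p.2.1 p.2.2) Y)) →
        Y ∈ gen Γ V (K + 1) (L + 1) := by
      intro K h
      rw [gen]
      refine mem_union_left _ ?_
      rw [mem_biUnion] at h ⊢
      obtain ⟨Z, hZ, h⟩ := h
      exact ⟨Z, ih K hZ, h⟩
    cases K with
    | zero =>
      rw [gen] at hY
      exact key 0 hY
    | succ K =>
      rw [gen, mem_union] at hY
      rcases hY with h | h
      · exact key (K + 1) h
      · rw [mem_biUnion] at h
        obtain ⟨Z, hZ, h⟩ := h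
        rw [gen]
        exact mem_union_right _ (mem_biUnion.2 ⟨Z, ih K hZ, h⟩)

theorem gen_mono_add (L K i : ℕ) : gen Γ V K L ⊆ gen Γ V (K + i) L := by
  induction i with
  | zero => exact Subset.refl _
  | succ i ih => exact ih.trans (gen_mono_K L (K + i))

theorem double (h : Semireg Γ V) (S T : Finset V) (K q : ℕ) (hTS : T ⊆ S) (hne : T.Nonempty)
    (hT : T ∈ gen Γ V K T.card) (hcl : Closed Γ S T)
    (hq : 2 * (D Γ S).card ≤ q * S.card) :
    ∃ T', T ⊆ T' ∧ T' ⊆ S ∧ T' ∈ gen Γ V (K + q) T'.card ∧ Closed Γ S T' ∧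
      (2 * T.card ≤ T'.card ∨ S.card < 2 * T'.card) := by
  have hTc : 1 ≤ T.card := card_pos.2 hne
  have hSc : 1 ≤ S.card := hTc.trans (card_le_card hTS)
  have key : ∀ i : ℕ, ∃ T', T ⊆ T' ∧ T' ⊆ S ∧ T' ∈ gen Γ V (K + i) T'.card ∧ Closed Γ S T' ∧
      (2 * (D Γ S).card * T.card + i * S.card * T.card ≤ 2 * (D Γ S).card * T'.card ∨
        S.card < 2 * T'.card) := by
    intro i
    induction i with
    | zero => exact ⟨T, Subset.refl _, hTS, hT, hcl, Or.inl (by simp)⟩
    | succ i ih =>
      obtain ⟨T', h1, h2, h3, h4, h5⟩ := ih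
      by_cases hb : S.card < 2 * T'.card
      · exact ⟨T', h1, h2, gen_mono_K _ _ h3, h4, Or.inr hb⟩
      · have h5' := h5.resolve_right hb
        have hne' : T' ≠ S := by
          rintro rfl
          omega
        obtain ⟨T'', g1, g2, g3, g4, g5, g6⟩ := exists_step h S T' (K + i) h2 hne' h3 h4
        refine ⟨T'', h1.trans g1, g2, g3, g4, Or.inl ?_⟩
        have hTT' : T.card ≤ T'.card := card_le_card h1
        have a1 : S.card ≤ 2 * (S.card - T'.card) := by omega
        have a2 : S.card * T.card ≤ 2 * ((T''.card - T'.card) * (D Γ S).card) := by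
          calc S.card * T.card ≤ (2 * (S.card - T'.card)) * T'.card := Nat.mul_le_mul a1 hTT'
            _ = 2 * ((S.card - T'.card) * T'.card) := by ring
            _ ≤ _ := Nat.mul_le_mul_left _ g6
        have a3 : T''.card = T'.card + (T''.card - T'.card) := by omega
        calc 2 * (D Γ S).card * T.card + (i + 1) * S.card * T.card
            = (2 * (D Γ S).card * T.card + i * S.card * T.card) + S.card * T.card := by ring
          _ ≤ 2 * (D Γ S).card * T'.card + 2 * ((T''.card - T'.card) * (D Γ S).card) :=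
              Nat.add_le_add h5' a2
          _ = 2 * (D Γ S).card * (T'.card + (T''.card - T'.card)) := by ring
          _ = 2 * (D Γ S).card * T''.card := by rw [← a3]
  obtain ⟨T', h1, h2, h3, h4, h5⟩ := key q
  refine ⟨T', h1, h2, h3, h4, ?_⟩
  rcases h5 with h5 | h5
  · rcases Nat.eq_zero_or_pos (D Γ S).card with h0 | h0
    · right
      have := card_le_D h S
      have h6 := card_le_card h1
      omega
    · left
      have h6 : 2 * (D Γ S).card * T.card ≤ q * S.card * T.card :=
        Nat.mul_le_mul_right _ hq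
      have h7 : 2 * (D Γ S).card * (2 * T.card) ≤ 2 * (D Γ S).card * T'.card := by
        calc 2 * (D Γ S).card * (2 * T.card)
            = 2 * (D Γ S).card * T.card + 2 * (D Γ S).card * T.card := by ring
          _ ≤ _ := by omega
      exact Nat.le_of_mul_le_mul_left h7 (by omega)
  · exact Or.inr h5

theorem phase_one (h : Semireg Γ V) (S : Finset V) (q : ℕ) (hne : S.Nonempty)
    (hq : 2 * (D Γ S).card ≤ q * S.card) (j : ℕ) :
    ∃ T, T ⊆ S ∧ T.Nonempty ∧ T ∈ gen Γ V (1 + j * q) T.card ∧ Closed Γ S T ∧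
      (2 ^ j ≤ T.card ∨ S.card < 2 * T.card) := by
  induction j with
  | zero =>
    obtain ⟨x, hx⟩ := hne
    obtain ⟨T, h1, h2, h3, h4⟩ := exists_closure (Γ := Γ) S 1 {x} (by simpa using hx) (by
      have := gen_free (Γ := Γ) 0 0 (Y := (∅ : Finset V)) (by simp [gen]) x
      simpa using this)
    have h5 : T.Nonempty := ⟨x, h1 (mem_singleton_self _)⟩
    refine ⟨T, h2, h5, by simpa using h3, h4, Or.inl ?_⟩
    simpa using h5
  | succ j ih =>
    obtain ⟨T, h1, h2, h3, h4, h5⟩ := ih
    obtain ⟨T', g1, g2, g3, g4, g5⟩ := double h S T (1 + j * q) q h1 h2 h3 h4 hq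
    refine ⟨T', g2, h2.mono g1, ?_, g4, ?_⟩
    · have e : 1 + (j + 1) * q = 1 + j * q + q := by ring
      rw [e]
      exact g3
    · rcases g5 with g5 | g5
      · rcases h5 with h5 | h5
        · left
          rw [pow_succ]
          omega
        · right
          have := card_le_card g1
          omega
      · exact Or.inr g5

theorem phase_two (h : Semireg Γ V) (S : Finset V) : ∀ (m K : ℕ) (T : Finset V),
    S.card - T.card = m → T ⊆ S → T ∈ gen Γ V K T.card → Closed Γ S T →
    S.card < 2 * T.card →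
    ∃ K', S ∈ gen Γ V (K + K') S.card ∧ K' * S.card + 2 * (D Γ T).card ≤ 2 * (D Γ S).card := by
  intro m
  induction m using Nat.strong_induction_on with
  | _ m ih =>
    intro K T hm hTS hT hcl hhalf
    by_cases hne : T = S
    · subst hne
      exact ⟨0, hT, by simp⟩
    · obtain ⟨x, hxS⟩ : (S \ T).Nonempty := by
        rw [sdiff_nonempty]
        intro hST
        exact hne (hTS.antisymm hST)
      rw [mem_sdiff] at hxS
      obtain ⟨T', h1, h2, h3, h4⟩ := exists_closure (Γ := Γ) S (K + 1) (insert x T)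
        (insert_subset hxS.1 hTS) (by
          rw [card_insert_of_notMem hxS.2]
          exact gen_free K _ hT x)
      have hTT' : T ⊆ T' := (subset_insert _ _).trans h1
      have hxT' : x ∈ T' := h1 (mem_insert_self _ _)
      have hlt : T.card < T'.card := by
        refine card_lt_card ⟨hTT', fun h => hxS.2 (h hxT')⟩
      have hle : T'.card ≤ S.card := card_le_card h2
      -- new classes
      have hD : (D Γ T).card + T.card ≤ (D Γ T').card := by
        classical
        have e1 : (T.image fun t => pc Γ t x).card = T.card := by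
          refine card_image_of_injOn ?_
          intro t _ t' _ e
          obtain ⟨g, hg1, hg2⟩ := (pc_eq_iff Γ).1 e
          have := h g x hg2
          rw [this, one_smul] at hg1
          exact hg1.symm
        have e2 : Disjoint (D Γ T) (T.image fun t => pc Γ t x) := by
          rw [Finset.disjoint_left]
          intro u hu hu'
          obtain ⟨⟨a, b⟩, hab, rfl⟩ := mem_image.1 hu
          rw [mem_offDiag] at hab
          obtain ⟨t, ht, e⟩ := mem_image.1 hu'
          obtain ⟨g, hg1, hg2⟩ := (pc_eq_iff Γ).1 e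
          have h5 : st Γ a b t = x := by
            rw [st_eq h hg1]
            exact hg2
          have h6 := hcl a hab.1 b hab.2.1 t ht (by rw [h5]; exact hxS.1)
          rw [h5] at h6
          exact hxS.2 h6
        have e3 : D Γ T ∪ (T.image fun t => pc Γ t x) ⊆ D Γ T' := by
          refine union_subset (D_mono Γ hTT') ?_
          intro u hu
          obtain ⟨t, ht, rfl⟩ := mem_image.1 hu
          exact mem_D Γ (hTT' ht) hxT' (fun e => hxS.2 (e ▸ ht))
        have e4 := card_le_card e3
        rwa [card_union_of_disjoint e2, e1] at e4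
      obtain ⟨K', g1, g2⟩ := ih (S.card - T'.card) (by omega) (K + 1) T' rfl h2 h3 h4 (by omega)
      refine ⟨K' + 1, ?_, ?_⟩
      · have e : K + (K' + 1) = K + 1 + K' := by ring
        rw [e]
        exact g1
      · have : (K' + 1) * S.card = K' * S.card + S.card := by ring
        omega

/-- **Generation by few points.** -/
theorem exists_gen (h : Semireg Γ V) (S : Finset V) (hS : 2 ≤ S.card) :
    ∃ K, 1 ≤ K ∧ S ∈ gen Γ V K S.card ∧
      K * S.card ≤ 4 * (Nat.log 2 S.card + 2) * (D Γ S).card := by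
  have hne : S.Nonempty := card_pos.1 (by omega)
  set n := S.card with hn
  set Δ := (D Γ S).card with hΔ
  have hΔ1 : n ≤ Δ + 1 := card_le_D h S
  set q := 2 * Δ / n + 1 with hq
  have hq1 : 2 * Δ ≤ q * n := by
    have := Nat.div_add_mod (2 * Δ) n
    have h2 := Nat.mod_lt (2 * Δ) (show 0 < n by omega)
    rw [hq, add_mul, one_mul, mul_comm (2 * Δ / n) n]
    omega
  have hq2 : q * n ≤ 2 * Δ + n := by
    rw [hq, add_mul, one_mul]
    exact Nat.add_le_add_right (Nat.div_mul_le_self _ _) _
  obtain ⟨T, h1, h2, h3, h4, h5⟩ := phase_one h S q hne hq1 (Nat.log 2 n + 1)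
  have h6 : n < 2 * T.card := by
    rcases h5 with h5 | h5
    · have h7 : n < 2 ^ (Nat.log 2 n + 1) := Nat.lt_pow_succ_log_self (by norm_num) _
      have h8 : T.card ≤ n := card_le_card h1
      omega
    · exact h5
  obtain ⟨K', g1, g2⟩ := phase_two h S _ _ T rfl h1 h3 h4 h6
  refine ⟨1 + (Nat.log 2 n + 1) * q + K', by omega, g1, ?_⟩
  rw [← hn, ← hΔ] at g2
  set l := Nat.log 2 n with hl
  have e1 : (1 + (l + 1) * q + K') * n = n + (l + 1) * (q * n) + K' * n := by ring
  rw [e1]
  have e2 : (l + 1) * (q * n) ≤ (l + 1) * (4 * Δ) := Nat.mul_le_mul_left _ (by omega)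
  have e3 : (l + 1) * (4 * Δ) = 4 * (l + 1) * Δ := by ring
  have e4 : 4 * (l + 2) * Δ = 4 * (l + 1) * Δ + 4 * Δ := by ring
  omega

end

end Pool.Agent.U310.CT
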