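import Pool.Agent.U310.CT.Union

/-!
# Numerical estimates
-/

set_option autoImplicit false

namespace Pool.Agent.U310.CT

open Finset

theorem log_small (ε : ℝ) (hε : 0 < ε) :
    ∃ n₀ : ℕ, ∀ n : ℕ, n₀ ≤ n → (Real.log n) ^ 2 ≤ ε * n := by
  have h := (Real.isLittleO_pow_log_id_atTop (n := 2)).def hε
  have h2 := tendsto_natCast_atTop_atTop (R := ℝ) |>.eventually h
  rw [Filter.eventually_atTop] at h2
  obtain ⟨n₀, hn₀⟩ := h2
  refine ⟨n₀, fun n hn => ?_⟩
  have := hn₀ n hn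
  simp only [id, Real.norm_eq_abs] at this
  rw [abs_of_nonneg (by positivity), abs_of_nonneg (by positivity)] at this
  exact this

theorem choose_ge (r n : ℕ) (hr : 2 ≤ r) (hn : 2 * r ≤ n) :
    (n : ℝ) ^ (r - 2) / (2 ^ (r - 2) * (r - 2).factorial) ≤ ((n - 2).choose (r - 2) : ℝ) := by
  have h1 := Nat.pow_le_choose (α := ℝ) (r - 2) (n - 2)
  refine le_trans ?_ h1
  rw [← div_div]
  refine div_le_div_of_nonneg_right ?_ (by positivity)
  rw [← div_pow]
  refine pow_le_pow_left₀ (by positivity) ?_ _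
  have h2 : n ≤ 2 * (n - 2 + 1 - (r - 2)) := by omega
  have h3 : (n : ℝ) ≤ 2 * ((n - 2 + 1 - (r - 2) : ℕ) : ℝ) := by exact_mod_cast h2
  linarith

theorem pow_bound (n : ℕ) : (2 * (n + 1) ^ 3) ^ n ≤ 2 ^ (n * (3 * Nat.log 2 n + 4)) := by
  have h1 : n + 1 ≤ 2 ^ (Nat.log 2 n + 1) := Nat.lt_pow_succ_log_self (by norm_num) n
  have h2 : 2 * (n + 1) ^ 3 ≤ 2 ^ (3 * Nat.log 2 n + 4) := by
    calc 2 * (n + 1) ^ 3 ≤ 2 * (2 ^ (Nat.log 2 n + 1)) ^ 3 :=
          Nat.mul_le_mul_left _ (Nat.pow_le_pow_left h1 3)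
      _ = 2 ^ (3 * Nat.log 2 n + 4) := by
          rw [← pow_mul, ← pow_succ']
          congr 1
          ring
  calc (2 * (n + 1) ^ 3) ^ n ≤ (2 ^ (3 * Nat.log 2 n + 4)) ^ n := Nat.pow_le_pow_left h2 n
    _ = _ := by rw [← pow_mul]; congr 1; ring

theorem natlog_le (n : ℕ) (hn : 1 ≤ n) : ((Nat.log 2 n : ℕ) : ℝ) ≤ 2 * Real.log n := by
  have h1 : (2 : ℝ) ^ (Nat.log 2 n) ≤ n := by
    exact_mod_cast Nat.pow_log_le_self 2 (by omega)
  have h2 := Real.log_le_log (by positivity) h1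
  rw [Real.log_pow] at h2
  have h3 : (1 / 2 : ℝ) ≤ Real.log 2 := by
    have := Real.log_two_gt_d9
    linarith
  have h4 : (0 : ℝ) ≤ (Nat.log 2 n : ℕ) := Nat.cast_nonneg _
  nlinarith

theorem numeric (r : ℕ) (hr : 3 ≤ r) : ∃ c : ℝ, 0 < c ∧ ∃ n₀ : ℕ, ∀ n : ℕ, n₀ ≤ n → 2 ≤ n ∧
    ∀ N : ℕ, (N : ℝ) ≤ Real.exp (c * (n : ℝ) ^ (r - 1) / Real.log n) →
      ∃ E : ℕ, N ≤ 2 ^ E ∧
        (E + n * (3 * Nat.log 2 n + 4) + 3) * (4 * (Nat.log 2 n + 2) * (r * (r - 1))) ≤
          n * (n - 2).choose (r - 2) := by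
  set A : ℝ := 2 ^ (r - 2) * (r - 2).factorial with hA
  have hA1 : 0 < A := by positivity
  have hr0 : (0 : ℝ) < r := by exact_mod_cast (show 0 < r by omega)
  obtain ⟨n₁, hn₁⟩ := log_small (1 / (448 * r ^ 2 * A)) (by positivity)
  refine ⟨1 / (64 * r ^ 2 * A), by positivity, max n₁ (max (2 * r) 3), ?_⟩
  intro n hn
  have hn1 : n₁ ≤ n := le_trans (le_max_left _ _) hn
  have hn2 : 2 * r ≤ n := le_trans (le_trans (le_max_left _ _) (le_max_right _ _)) hn
  have hn3 : 3 ≤ n := le_trans (le_trans (le_max_right _ _) (le_max_right _ _)) hn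
  refine ⟨by omega, ?_⟩
  intro N hN
  have hnR : (3 : ℝ) ≤ n := by exact_mod_cast hn3
  set L := Real.log n with hL
  have hL1 : 1 ≤ L := by
    rw [hL, Real.le_log_iff_exp_le (by linarith)]
    have := Real.exp_one_lt_d9
    linarith
  set P : ℝ := (n : ℝ) ^ (r - 1) with hP
  have hP0 : 0 < P := by positivity
  set c : ℝ := 1 / (64 * r ^ 2 * A) with hc
  have hc0 : 0 < c := by positivity
  refine ⟨⌈c * P / L / Real.log 2⌉₊, ?_, ?_⟩
  · have h1 : (N : ℝ) ≤ 2 ^ (⌈c * P / L / Real.log 2⌉₊ : ℕ) := by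
      refine hN.trans ?_
      rw [← Real.rpow_natCast, Real.rpow_def_of_pos (by norm_num)]
      apply Real.exp_le_exp.2
      have h2 := Nat.le_ceil (c * P / L / Real.log 2)
      have h3 : 0 < Real.log 2 := Real.log_pos (by norm_num)
      calc c * P / L = Real.log 2 * (c * P / L / Real.log 2) := by field_simp
        _ ≤ _ := mul_le_mul_of_nonneg_left h2 h3.le
    exact_mod_cast h1
  · set E := ⌈c * P / L / Real.log 2⌉₊ with hE
    set l := Nat.log 2 n with hl
    have hlR : (l : ℝ) ≤ 2 * L := natlog_le n (by omega)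
    have hl0 : (0 : ℝ) ≤ l := Nat.cast_nonneg _
    have hER : (E : ℝ) ≤ 2 * (c * P / L) + 1 := by
      have h1 := (Nat.ceil_lt_add_one (show 0 ≤ c * P / L / Real.log 2 by
        have : 0 < Real.log 2 := Real.log_pos (by norm_num)
        positivity)).le
      refine h1.trans (add_le_add ?_ le_rfl)
      have h3 : (1 / 2 : ℝ) ≤ Real.log 2 := by
        have := Real.log_two_gt_d9
        linarith
      rw [div_le_iff₀ (by linarith)]
      have h4 : 0 ≤ c * P / L := by positivity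
      nlinarith
    have hchoose := choose_ge r n (by omega) hn2
    have hlog := hn₁ n hn1
    -- real inequality
    have key : ((E : ℝ) + n * (3 * l + 4) + 3) * (4 * (l + 2) * (r * r)) ≤
        n * ((n - 2).choose (r - 2) : ℝ) := by
      have k1 : (l : ℝ) + 2 ≤ 4 * L := by linarith
      have k2 : (3 : ℝ) * l + 4 ≤ 10 * L := by linarith
      have k3 : (E : ℝ) + n * (3 * l + 4) + 3 ≤ 2 * (c * P / L) + 14 * (n * L) := by
        have : (n : ℝ) * (3 * l + 4) ≤ n * (10 * L) := by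
          exact mul_le_mul_of_nonneg_left k2 (by linarith)
        have h4 : 4 ≤ 4 * ((n : ℝ) * L) := by nlinarith
        linarith
      have k4 : ((E : ℝ) + n * (3 * l + 4) + 3) * (4 * (l + 2) * (r * r)) ≤
          (2 * (c * P / L) + 14 * (n * L)) * (4 * (4 * L) * (r * r)) := by
        refine mul_le_mul k3 ?_ (by positivity) (by positivity)
        refine mul_le_mul_of_nonneg_right ?_ (by positivity)
        linarith
      have k5 : (2 * (c * P / L) + 14 * (n * L)) * (4 * (4 * L) * (r * r)) =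
          32 * r ^ 2 * c * P + 224 * r ^ 2 * (n * L ^ 2) := by
        field_simp
        ring
      have k6 : 32 * (r : ℝ) ^ 2 * c * P = P / (2 * A) := by
        rw [hc]
        field_simp
        norm_num
      have k7 : 224 * (r : ℝ) ^ 2 * (n * L ^ 2) ≤ (n : ℝ) ^ 2 / (2 * A) := by
        calc 224 * (r : ℝ) ^ 2 * (n * L ^ 2)
            ≤ 224 * (r : ℝ) ^ 2 * (n * (1 / (448 * r ^ 2 * A) * n)) := by
              refine mul_le_mul_of_nonneg_left ?_ (by positivity)
              exact mul_le_mul_of_nonneg_left hlog (by linarith)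
          _ = (n : ℝ) ^ 2 / (2 * A) := by
              field_simp
              norm_num
      have k8 : (n : ℝ) ^ 2 / (2 * A) ≤ P / (2 * A) := by
        refine div_le_div_of_nonneg_right ?_ (by positivity)
        exact pow_le_pow_right₀ (by linarith) (by omega)
      have k9 : P / (2 * A) + P / (2 * A) = P / A := by
        field_simp
        ring
      have k10 : P / A = n * ((n : ℝ) ^ (r - 2) / A) := by
        rw [hP, show r - 1 = (r - 2) + 1 by omega, pow_succ]
        ring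
      have k11 : (n : ℝ) * ((n : ℝ) ^ (r - 2) / A) ≤ n * ((n - 2).choose (r - 2) : ℝ) :=
        mul_le_mul_of_nonneg_left hchoose (by linarith)
      linarith
    have key2 : (E + n * (3 * l + 4) + 3) * (4 * (l + 2) * (r * r)) ≤
        n * (n - 2).choose (r - 2) := by exact_mod_cast key
    refine le_trans ?_ key2
    refine Nat.mul_le_mul_left _ (Nat.mul_le_mul_left _ (Nat.mul_le_mul_left _ (Nat.sub_le _ _)))

/-- **Invariant colourings for semiregular groups.** -/
theorem main (r : ℕ) (hr : 3 ≤ r) : ∃ c : ℝ, 0 < c ∧ ∃ n₀ : ℕ, ∀ n : ℕ, n₀ ≤ n →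
    ∀ (Γ V : Type) [Group Γ] [Fintype V] [DecidableEq V] [MulAction Γ V],
      Semireg Γ V →
      (Fintype.card V : ℝ) ≤ Real.exp (c * (n : ℝ) ^ (r - 1) / Real.log n) →
      ∃ col : Finset V → Bool, (∀ (g : Γ) (A : Finset V), col (A.image (g • ·)) = col A) ∧
        ∀ S : Finset V, S.card = n → ∀ b : Bool, ∃ A ⊆ S, A.card = r ∧ col A ≠ b := by
  obtain ⟨c, hc, n₀, h⟩ := numeric r hr
  refine ⟨c, hc, n₀, ?_⟩
  intro n hn Γ V _ _ _ _ hreg hV
  obtain ⟨hn2, h'⟩ := h n hn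
  obtain ⟨E, hE, hb⟩ := h' _ hV
  exact core hreg r n E _ (by omega) hn2 hE (pow_bound n) hb

end Pool.Agent.U310.CT
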