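import Pool.Agent.U310.CT.Grow

/-!
# Classes of `r`-subsets
-/

set_option autoImplicit false

namespace Pool.Agent.U310.CT

open Finset
open scoped Pointwise

section

variable (Γ : Type) {V : Type} [Group Γ] [MulAction Γ V] [DecidableEq V]

/-- The class of a set under the action of the group. -/
def sc (A : Finset V) : MulAction.orbitRel.Quotient Γ (Finset V) :=
  Quotient.mk (MulAction.orbitRel Γ (Finset V)) A

theorem sc_eq_iff {A B : Finset V} : sc Γ A = sc Γ B ↔ ∃ g : Γ, g • B = A := by
  unfold sc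
  rw [Quotient.eq]
  change A ∈ MulAction.orbit Γ B ↔ _
  rw [MulAction.mem_orbit_iff]

open Classical in
/-- The classes of the `r`-subsets of `S`. -/
noncomputable def cls (r : ℕ) (S : Finset V) : Finset (MulAction.orbitRel.Quotient Γ (Finset V)) :=
  (S.powersetCard r).image (sc Γ)

variable {Γ}

theorem card_cls_ge (h : Semireg Γ V) (r : ℕ) (hr : 2 ≤ r) (S : Finset V) :
    (D Γ S).card * (S.card - 2).choose (r - 2) ≤ r * (r - 1) * (cls Γ r S).card := by
  classical
  obtain ⟨rep, hrep⟩ : ∃ rep : MulAction.orbitRel.Quotient Γ (V × V) → V × V,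
      ∀ d ∈ D Γ S, rep d ∈ S.offDiag ∧ pc Γ (rep d).1 (rep d).2 = d := by
    have : ∀ d : MulAction.orbitRel.Quotient Γ (V × V), ∃ p : V × V,
        d ∈ D Γ S → p ∈ S.offDiag ∧ pc Γ p.1 p.2 = d := by
      intro d
      by_cases hd : d ∈ D Γ S
      · obtain ⟨p, hp, e⟩ := mem_image.1 hd
        exact ⟨p, fun _ => ⟨hp, e⟩⟩
      · exact ⟨Quotient.out d, fun h => absurd h hd⟩
    choose rep hrep using this
    exact ⟨rep, hrep⟩
  set I : Finset (Σ _ : MulAction.orbitRel.Quotient Γ (V × V), Finset V) :=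
    (D Γ S).sigma fun d => (S \ {(rep d).1, (rep d).2}).powersetCard (r - 2) with hI
  set F : (Σ _ : MulAction.orbitRel.Quotient Γ (V × V), Finset V) → Finset V :=
    fun w => insert (rep w.1).1 (insert (rep w.1).2 w.2) with hF
  have hmem : ∀ w ∈ I, (rep w.1).1 ∈ S ∧ (rep w.1).2 ∈ S ∧ (rep w.1).1 ≠ (rep w.1).2 ∧
      pc Γ (rep w.1).1 (rep w.1).2 = w.1 ∧ w.2 ⊆ S ∧ (rep w.1).1 ∉ w.2 ∧ (rep w.1).2 ∉ w.2 ∧
      w.2.card = r - 2 := by
    intro w hw
    rw [hI, mem_sigma, mem_powersetCard] at hw
    obtain ⟨h1, h2⟩ := hrep _ hw.1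
    rw [mem_offDiag] at h1
    refine ⟨h1.1, h1.2.1, h1.2.2, h2, fun x hx => (mem_sdiff.1 (hw.2.1 hx)).1, ?_, ?_, hw.2.2⟩
    · intro hx
      have := (mem_sdiff.1 (hw.2.1 hx)).2
      simp at this
    · intro hx
      have := (mem_sdiff.1 (hw.2.1 hx)).2
      simp at this
  have hFc : ∀ w ∈ I, (F w).card = r := by
    intro w hw
    obtain ⟨h1, h2, h3, h4, h5, h6, h7, h8⟩ := hmem w hw
    rw [hF]
    simp only
    rw [card_insert_of_notMem, card_insert_of_notMem h7, h8]
    · omega
    · rw [mem_insert]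
      push Not
      exact ⟨h3, h6⟩
  have hcardI : I.card = (D Γ S).card * (S.card - 2).choose (r - 2) := by
    rw [hI, card_sigma, sum_congr rfl (g := fun _ => (S.card - 2).choose (r - 2)), sum_const,
      smul_eq_mul]
    intro d hd
    rw [card_powersetCard, card_sdiff_of_subset]
    · obtain ⟨h1, -⟩ := hrep d hd
      rw [mem_offDiag] at h1
      rw [card_pair h1.2.2]
    · obtain ⟨h1, -⟩ := hrep d hd
      rw [mem_offDiag] at h1
      intro x hx
      rw [mem_insert, mem_singleton] at hx
      rcases hx with rfl | rfl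
      · exact h1.1
      · exact h1.2.1
  rw [← hcardI]
  have hfib : ∀ u ∈ I.image fun w => sc Γ (F w),
      (I.filter fun w => sc Γ (F w) = u).card ≤ r * (r - 1) := by
    intro u hu
    obtain ⟨w₀, hw₀, rfl⟩ := mem_image.1 hu
    set J := I.filter fun w => sc Γ (F w) = sc Γ (F w₀) with hJ
    have hg : ∀ w ∈ J, ∃ g : Γ, g • F w = F w₀ := by
      intro w hw
      rw [hJ, mem_filter] at hw
      exact (sc_eq_iff Γ).1 hw.2.symm
    choose! g hg using hg
    have hoff : (F w₀).offDiag.card = r * (r - 1) := by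
      rw [offDiag_card, hFc w₀ hw₀]
      rw [Nat.mul_sub, mul_one]
    rw [← hoff]
    refine card_le_card_of_injOn (fun w => (g w • (rep w.1).1, g w • (rep w.1).2)) ?_ ?_
    · intro w hw
      have hwI : w ∈ I := (mem_filter.1 hw).1
      obtain ⟨h1, h2, h3, h4, h5, h6, h7, h8⟩ := hmem w hwI
      rw [mem_coe, mem_offDiag]
      have e := hg w hw
      refine ⟨?_, ?_, ?_⟩
      · rw [← e]
        exact smul_mem_smul_finset (mem_insert_self _ _)
      · rw [← e]
        exact smul_mem_smul_finset (mem_insert_of_mem (mem_insert_self _ _))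
      · intro e'
        exact h3 (smul_left_cancel _ e')
    · intro w hw w' hw' e
      have hwI : w ∈ I := (mem_filter.1 hw).1
      have hwI' : w' ∈ I := (mem_filter.1 hw').1
      obtain ⟨h1, h2, h3, h4, h5, h6, h7, h8⟩ := hmem w hwI
      obtain ⟨k1, k2, k3, k4, k5, k6, k7, k8⟩ := hmem w' hwI'
      simp only [Prod.mk.injEq] at e
      have hd : w.1 = w'.1 := by
        rw [← h4, ← k4, pc_eq_iff]
        refine ⟨(g w)⁻¹ * g w', ?_, ?_⟩
        · rw [mul_smul, ← e.1, inv_smul_smul]
        · rw [mul_smul, ← e.2, inv_smul_smul]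
      obtain ⟨d, Z⟩ := w
      obtain ⟨d', Z'⟩ := w'
      simp only at hd
      subst hd
      have hgg : g ⟨d, Z⟩ = g ⟨d, Z'⟩ := h.eq e.1
      have hFF : F ⟨d, Z⟩ = F ⟨d, Z'⟩ := by
        have e1 := hg _ hw
        have e2 := hg _ hw'
        rw [← e2, hgg] at e1
        exact smul_left_cancel _ e1
      simp only [hF] at hFF
      have hZ : Z = Z' := by
        simp only at h6 h7 k6 k7
        ext x
        constructor
        · intro hx
          have : x ∈ insert (rep d).1 (insert (rep d).2 Z') := by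
            rw [← hFF]
            exact mem_insert_of_mem (mem_insert_of_mem hx)
          rw [mem_insert, mem_insert] at this
          rcases this with rfl | rfl | h
          · exact absurd hx h6
          · exact absurd hx h7
          · exact h
        · intro hx
          have : x ∈ insert (rep d).1 (insert (rep d).2 Z) := by
            rw [hFF]
            exact mem_insert_of_mem (mem_insert_of_mem hx)
          rw [mem_insert, mem_insert] at this
          rcases this with rfl | rfl | h
          · exact absurd hx k6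
          · exact absurd hx k7
          · exact h
      rw [hZ]
  refine (card_le_mul_card_image I _ hfib).trans (Nat.mul_le_mul_left _ (card_le_card ?_))
  intro u hu
  obtain ⟨w, hw, rfl⟩ := mem_image.1 hu
  obtain ⟨h1, h2, h3, h4, h5, h6, h7, h8⟩ := hmem w hw
  refine mem_image.2 ⟨F w, ?_, rfl⟩
  rw [mem_powersetCard]
  exact ⟨insert_subset h1 (insert_subset h2 h5), hFc w hw⟩

end

end Pool.Agent.U310.CT
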