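import Pool.Agent.U310.CT.Orb

/-!
# The random invariant colouring
-/

set_option autoImplicit false

namespace Pool.Agent.U310.CT

open Finset
open scoped Pointwise

theorem card_const {Q : Type} [Fintype Q] [DecidableEq Q] (I : Finset Q) (b : Bool) :
    ((univ.filter fun f : Q → Bool => ∀ q ∈ I, f q = b).card : ℝ) =
      2 ^ (Fintype.card Q) * (1 / 2) ^ I.card := by
  have h1 : (univ.filter fun f : Q → Bool => ∀ q ∈ I, f q = b) =
      Fintype.piFinset fun q => if q ∈ I then {b} else univ := by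
    ext f
    simp only [mem_filter, mem_univ, true_and, Fintype.mem_piFinset]
    constructor
    · intro h q
      by_cases hq : q ∈ I
      · rw [if_pos hq, h q hq]
        exact mem_singleton_self _
      · rw [if_neg hq]
        exact mem_univ _
    · intro h q hq
      have := h q
      rw [if_pos hq] at this
      exact mem_singleton.1 this
  rw [h1, Fintype.card_piFinset]
  have h2 : ∀ q : Q, (if q ∈ I then ({b} : Finset Bool) else univ).card =
      if q ∈ I then 1 else 2 := by
    intro q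
    split_ifs <;> simp
  rw [prod_congr rfl fun q _ => h2 q, prod_ite, prod_const_one, one_mul, prod_const]
  have h3 : (univ.filter fun q : Q => q ∉ I).card + I.card = Fintype.card Q := by
    have e : (univ.filter fun q : Q => q ∉ I) = Iᶜ := by
      ext q
      simp
    rw [e, card_compl]
    exact Nat.sub_add_cancel (card_le_univ I)
  rw [← h3]
  push_cast
  rw [pow_add, mul_assoc, ← mul_pow]
  norm_num

theorem exists_colouring {Q ι : Type} [Fintype Q] [DecidableEq Q] (s : Finset ι)
    (I : ι → Finset Q) (hs : ∑ i ∈ s, 2 * (1 / 2 : ℝ) ^ (I i).card < 1) :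
    ∃ f : Q → Bool, ∀ i ∈ s, ∀ b : Bool, ∃ q ∈ I i, f q ≠ b := by
  classical
  by_contra hcon
  push Not at hcon
  have h1 : (univ : Finset (Q → Bool)) ⊆ s.biUnion fun i =>
      (univ.filter fun f : Q → Bool => ∀ q ∈ I i, f q = true) ∪
      (univ.filter fun f : Q → Bool => ∀ q ∈ I i, f q = false) := by
    intro f _
    obtain ⟨i, hi, b, hb⟩ := hcon f
    rw [mem_biUnion]
    refine ⟨i, hi, ?_⟩
    cases b with
    | true => exact mem_union_left _ (by simpa using hb)
    | false => exact mem_union_right _ (by simpa using hb)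
  have h2 := card_le_card h1
  rw [card_univ, Fintype.card_fun, Fintype.card_bool] at h2
  have h3 : ((2 : ℝ)) ^ (Fintype.card Q) ≤
      ∑ i ∈ s, 2 ^ (Fintype.card Q) * (2 * (1 / 2 : ℝ) ^ (I i).card) := by
    calc (2 : ℝ) ^ (Fintype.card Q) = ((2 ^ (Fintype.card Q) : ℕ) : ℝ) := by push_cast; rfl
      _ ≤ ((s.biUnion fun i =>
      (univ.filter fun f : Q → Bool => ∀ q ∈ I i, f q = true) ∪
      (univ.filter fun f : Q → Bool => ∀ q ∈ I i, f q = false)).card : ℝ) := by
          exact_mod_cast h2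
      _ ≤ ∑ i ∈ s, (((univ.filter fun f : Q → Bool => ∀ q ∈ I i, f q = true).card : ℝ) +
          ((univ.filter fun f : Q → Bool => ∀ q ∈ I i, f q = false).card : ℝ)) := by
          have := (card_biUnion_le (s := s) (t := fun i =>
            (univ.filter fun f : Q → Bool => ∀ q ∈ I i, f q = true) ∪
            (univ.filter fun f : Q → Bool => ∀ q ∈ I i, f q = false)))
          have h4 := this.trans (sum_le_sum fun i _ => card_union_le _ _)
          exact_mod_cast h4
      _ = _ := by
          refine sum_congr rfl fun i _ => ?_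
          rw [card_const, card_const]
          ring
  rw [← mul_sum] at h3
  have h4 : (0 : ℝ) < 2 ^ (Fintype.card Q) := by positivity
  nlinarith

theorem geom_small (M : ℕ) : ∑ K ∈ Icc 1 M, (2 : ℝ) * (1 / 8) ^ K < 1 := by
  have key : ∑ K ∈ Icc 1 M, (2 : ℝ) * (1 / 8) ^ K ≤ 2 / 7 - (2 / 7) * (1 / 8) ^ M := by
    induction M with
    | zero => simp
    | succ M ih =>
      rw [sum_Icc_succ_top (by omega)]
      have : (1 / 8 : ℝ) ^ (M + 1) = (1 / 8) ^ M * (1 / 8) := pow_succ _ _
      rw [this]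
      linarith
  have : (0 : ℝ) ≤ (2 / 7) * (1 / 8) ^ M := by positivity
  linarith

/-- **The core theorem.** -/
theorem core {Γ V : Type} [Group Γ] [MulAction Γ V] [Fintype V] [DecidableEq V]
    (h : Semireg Γ V) (r n E H : ℕ) (hr : 2 ≤ r) (hn : 2 ≤ n)
    (hE : Fintype.card V ≤ 2 ^ E) (hH : (2 * (n + 1) ^ 3) ^ n ≤ 2 ^ H)
    (hb : (E + H + 3) * (4 * (Nat.log 2 n + 2) * (r * (r - 1))) ≤
      n * (n - 2).choose (r - 2)) :
    ∃ col : Finset V → Bool, (∀ (g : Γ) (A : Finset V), col (A.image (g • ·)) = col A) ∧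
      ∀ S : Finset V, S.card = n → ∀ b : Bool, ∃ A ⊆ S, A.card = r ∧ col A ≠ b := by
  classical
  have : Finite (MulAction.orbitRel.Quotient Γ (Finset V)) :=
    inferInstanceAs (Finite (Quotient _))
  letI : Fintype (MulAction.orbitRel.Quotient Γ (Finset V)) := Fintype.ofFinite _
  -- the number of generators
  have hK : ∀ S : Finset V, ∃ K, S.card = n → 1 ≤ K ∧ S ∈ gen Γ V K n ∧
      K * (E + H + 3) ≤ (cls Γ r S).card := by
    intro S
    by_cases hS : S.card = n
    · obtain ⟨K, h1, h2, h3⟩ := exists_gen h S (by omega)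
      refine ⟨K, fun _ => ⟨h1, by rwa [hS] at h2, ?_⟩⟩
      have h4 := card_cls_ge h r hr S
      rw [hS] at h3 h4
      set l := Nat.log 2 n
      set C := (n - 2).choose (r - 2)
      have h5 : 0 < 4 * (l + 2) * (r * (r - 1)) := by
        have : 0 < r * (r - 1) := Nat.mul_pos (by omega) (by omega)
        positivity
      refine Nat.le_of_mul_le_mul_left ?_ h5
      calc 4 * (l + 2) * (r * (r - 1)) * (K * (E + H + 3))
          = K * ((E + H + 3) * (4 * (l + 2) * (r * (r - 1)))) := by ring
        _ ≤ K * (n * C) := Nat.mul_le_mul_left _ hb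
        _ = (K * n) * C := by ring
        _ ≤ (4 * (l + 2) * (D Γ S).card) * C := Nat.mul_le_mul_right _ h3
        _ = 4 * (l + 2) * ((D Γ S).card * C) := by ring
        _ ≤ 4 * (l + 2) * (r * (r - 1) * (cls Γ r S).card) := Nat.mul_le_mul_left _ h4
        _ = _ := by ring
    · exact ⟨0, fun h => absurd h hS⟩
  choose K hK using hK
  set s : Finset (Finset V) := powersetCard n univ with hs
  have hmems : ∀ S ∈ s, S.card = n := fun S hS => (mem_powersetCard.1 hS).2
  set M := s.sup K with hM
  have hsum : ∑ S ∈ s, 2 * (1 / 2 : ℝ) ^ (cls Γ r S).card < 1 := by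
    have e1 : ∑ S ∈ s, 2 * (1 / 2 : ℝ) ^ (cls Γ r S).card ≤
        ∑ S ∈ s, 2 * (1 / 2 : ℝ) ^ (K S * (E + H + 3)) := by
      refine sum_le_sum fun S hS => ?_
      have := (hK S (hmems S hS)).2.2
      exact mul_le_mul_of_nonneg_left
        (pow_le_pow_of_le_one (by norm_num) (by norm_num) this) (by norm_num)
    have e2 : ∑ S ∈ s, 2 * (1 / 2 : ℝ) ^ (K S * (E + H + 3)) =
        ∑ k ∈ Icc 1 M, ∑ S ∈ s.filter (fun S => K S = k), 2 * (1 / 2 : ℝ) ^ (K S * (E + H + 3)) := by
      rw [sum_fiberwise_of_maps_to]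
      intro S hS
      rw [mem_Icc]
      exact ⟨(hK S (hmems S hS)).1, le_sup (f := K) hS⟩
    have e3 : ∀ k ∈ Icc 1 M,
        ∑ S ∈ s.filter (fun S => K S = k), 2 * (1 / 2 : ℝ) ^ (K S * (E + H + 3)) ≤
          2 * (1 / 8) ^ k := by
      intro k hk
      rw [mem_Icc] at hk
      rw [sum_congr rfl (g := fun _ => 2 * (1 / 2 : ℝ) ^ (k * (E + H + 3))), sum_const,
        nsmul_eq_mul]
      · have f1 : (s.filter fun S => K S = k).card ≤ (gen Γ V k n).card := by
          refine card_le_card ?_
          intro S hS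
          rw [mem_filter] at hS
          have := (hK S (hmems S hS.1)).2.1
          rwa [hS.2] at this
        have f2 : (gen Γ V k n).card ≤ 2 ^ (E * k + H) := by
          refine (card_gen_le (2 ^ E) Nat.one_le_two_pow hE n k).trans ?_
          rw [pow_add, pow_mul]
          exact Nat.mul_le_mul_left _ hH
        have f3 : ((s.filter fun S => K S = k).card : ℝ) ≤ 2 ^ (E * k + H) := by
          exact_mod_cast f1.trans f2
        have f4 : E * k + H + 3 * k ≤ k * (E + H + 3) := by
          have : H * 1 ≤ H * k := Nat.mul_le_mul_left _ hk.1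
          nlinarith
        calc ((s.filter fun S => K S = k).card : ℝ) * (2 * (1 / 2 : ℝ) ^ (k * (E + H + 3)))
            ≤ 2 ^ (E * k + H) * (2 * (1 / 2 : ℝ) ^ (E * k + H + 3 * k)) := by
              refine mul_le_mul f3 ?_ (by positivity) (by positivity)
              exact mul_le_mul_of_nonneg_left
                (pow_le_pow_of_le_one (by norm_num) (by norm_num) f4) (by norm_num)
          _ = 2 * ((2 * (1 / 2 : ℝ)) ^ (E * k + H) * ((1 / 2 : ℝ) ^ 3) ^ k) := by
              rw [mul_pow, pow_add (1 / 2 : ℝ) (E * k + H) (3 * k), pow_mul (1 / 2 : ℝ) 3 k]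
              ring
          _ = 2 * (1 / 8) ^ k := by norm_num
      · intro S hS
        rw [(mem_filter.1 hS).2]
    calc _ ≤ _ := e1
      _ = _ := e2
      _ ≤ ∑ k ∈ Icc 1 M, 2 * (1 / 8 : ℝ) ^ k := sum_le_sum e3
      _ < 1 := geom_small M
  obtain ⟨f, hf⟩ := exists_colouring s (fun S => cls Γ r S) hsum
  refine ⟨fun A => f (sc Γ A), ?_, ?_⟩
  · intro g A
    have : sc Γ (A.image (g • ·)) = sc Γ A := (sc_eq_iff Γ).2 ⟨g, rfl⟩
    simp only [this]
  · intro S hS b
    obtain ⟨u, hu, hub⟩ := hf S (by rw [hs, mem_powersetCard]; exact ⟨subset_univ _, hS⟩) b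
    obtain ⟨A, hA, rfl⟩ := mem_image.1 hu
    rw [mem_powersetCard] at hA
    exact ⟨A, hA.1, hA.2, hub⟩

end Pool.Agent.U310.CT
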